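import Pool.Agent.H7.GY.Stmts

/-!
# The Turán graph for all natural residues: board `mf` (MP_fd41b2_co)

`b = p + 3 = ω - 1`, `n = w + 2 = t - 1`, `c₁ = choose (p+2) (w+1)`, `Δ = (p + 3) a + r`. The theorem FNY of the board `gy11` under the
conditions `2 r < (w+1)(b-r)`, `(w+3) choose (r-1) (w+1) < c₁` in place of `R1`, `R3` (both are natural: if one of them fails
strictly, the Turán graph is not extremal). Row `XXX` = `def XXXStmt : Prop`; file `Pool/Agent/H<k>/MF/XXX.lean`, `import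
Pool.Agent.H7.MF.Stmts`, namespace `Pool.MF7`, `open Pool.Agent.H23.KT Pool.Agent.H46.KW Pool.KQ Pool.GT7 Pool.GU7 Pool.GV7`. Most
rows are copies of rows of `gy11` (`Pool.GY7`, files `Pool/Agent/H*/GY/XXX.lean`); BDE uses the row BGJ of `kc15` (`Pool.KC7.BGJStmt`, file
`Pool/Agent/H85/KC/BGJ.lean` or so), given here as the hypothesis `BGEStmt`.
-/

set_option autoImplicit false

open Finset

namespace Pool.MF7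

open Pool.Agent.H23.KT Pool.Agent.H46.KW Pool.KQ Pool.GT7 Pool.GU7 Pool.GV7

/-- The conditions of the theorem. -/
structure PrE (p w r : ℕ) : Prop where
  w2 : 2 ≤ w
  wp : w ≤ p
  rw : w + 2 ≤ r
  rp : r ≤ p
  s1 : 2 * r < (w + 1) * (p + 3 - r)
  s2 : (w + 3) * (r - 1).choose (w + 1) < (p + 2).choose (w + 1)

/-- `σ = 2 (1 - b/(n (b-r)))/(n-1)`. -/
noncomputable def sE (p w r : ℕ) : ℝ :=
  2 * (1 - ((p : ℝ) + 3) / (((w : ℝ) + 2) * ((p : ℝ) + 3 - r))) / ((w : ℝ) + 1)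

/-- Threshold for the codegrees. -/
noncomputable def thE (p w r : ℕ) : ℝ := 1 - 49 / 50 * sE p w r

/-- Threshold for the debts. -/
noncomputable def yE (p w r : ℕ) : ℝ := 1 - 99 / 100 * sE p w r

/-- `(b - 1) th`. -/
noncomputable def mE (p w r : ℕ) : ℝ := ((p : ℝ) + 2) * thE p w r

/-! ### Numbers -/

/-- (GCE) As `Pool.GY7.GCYStmt`; `(w+3) choose (r-1) (w+1) < c₁` is a hypothesis now. -/
def GCEStmt : Prop :=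
  ∀ p w r : ℕ, PrE p w r → Pr0 p w r ∧
    (∀ B ≤ p + 1, ((w : ℝ) + 3) * B.choose (w + 1) + 1 / (4 * ((p : ℝ) + 3) ^ 2) ≤
      (p + 2).choose (w + 1) * (1 + ((w : ℝ) + 2) * ww p r B))

/-- (NUE) Real numbers. `n = w + 2 ≥ 4`, `k = b - r ≥ 3`, `b ≥ n + k` (`rw`), `2 b ≤ (n+1) k - 1` (`s1`), `σ = sE = 2 (1 - b/(n k))/(n-1)`. PROOF. (1) `b/(n k) ≤
(n+1)/(2n)`. (2) clear (`th > 0` as `σ ≤ 2/(n-1) · ..`: `σ ≤ 2/3`). (3) `s = (99/100) σ`, `y = 1 - s`, `y^n ≤ 1 - n s + n (n-1) s^2/2` (`0 ≤ s ≤ 1`; Bonferroni, e.g. induction on `n`): `b y - r - k y^n ≥ - b s +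
k (n s - n (n-1) s^2/2) = b s ((n k/b)(1 - (n-1) s/2) - 1) = b s (1/100)(n k/b - 1) ≥ b s (1/100)(n-1)/(n+1) ≥ b (99/100)(1/n)(1/100)(3/5) ≥ b/(200 n)`. (4) `(n-1)((49/50) σ - 1/(b-1)) = 1.96 (1 - b/(n k)) -
(n-1)/(b-1)`: multiplied by `n k (b-1)` and minus `0.306 n k (b-1)` this is a concave quadratic polynomial `Q b`, so it is enough to have `Q ≥ 0` at `b = n + k` and at `b = ((n+1) k - 1)/2`; there the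
value of the left side of (4) is `1.96 (1 - 1/k - 1/n) - (n-1)/(n+k-1)`, increasing in `k`, at `k = 3`: `0.3067 - 1.96/n + 3/(n+2) ≥ 0.3067` for `n ≥ 4`; and `0.98 (n-1)/n + 0.98/(n k) - 2 (n-1)/((n+1) k -
3)`, increasing in `k`, at `k = 3`: `0.3133 + 0.0133/n`. -/
def NUEStmt : Prop :=
  ∀ p w r : ℕ, PrE p w r → 1 / ((w : ℝ) + 2) ≤ sE p w r ∧
    sE p w r ≤ 2 / 3 ∧ 0 < thE p w r ∧ thE p w r < 1 ∧
    ((p : ℝ) + 3) / (200 * ((w : ℝ) + 2)) ≤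
      ((p : ℝ) + 3) * yE p w r - r - ((p : ℝ) + 3 - r) * yE p w r ^ (w + 2) ∧
    306 / 1000 ≤ ((w : ℝ) + 1) * (49 / 50 * sE p w r - 1 / ((p : ℝ) + 2))

/-- (NUF) Real numbers. Needs NUE. `X = 1 - 29/(20 n)`, `n = w + 2 ≥ 4`. PROOF. `∑ X^(k+1) = X (1 - X^(n-1))/(1-X) = ((20 n - 29)/29)(1 - X^(n-1))`. FACTS: (a) `th ≤ 1 - 0.98/n` (NUE (1)), `th^(n-1) ≤ (1 -
0.98/n)^(n-1) ≤ 0.4305`: `n = 4`: `0.755^3 = 0.43037`; `n ≥ 5`: `≤ 0.418`: `n ≤ 12` numerically, `n ≥ 13`: `≤ exp (-0.98 (n-1)/n) ≤ exp (-0.904) ≤ 0.405` (or: the sequence decreases). (b) `X^(n-1) ≤ 0.2592`: `n ≤ 16` numerically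
(`0.6375^3 = 0.25908`, then smaller), `n ≥ 17`: `≤ exp (-1.45 (n-1)/n) ≤ exp (-1.3647) ≤ 0.2555`. First inequality: `(n-1) 0.4305 ≤ ((20 n - 29)/29) 0.7408` for `n ≥ 4` (`1.2915 ≤ 1.3028`, slopes `0.4305 < 0.5108`). (c) the
base `g₀` of the second inequality is `1 - ((49/50) σ - 1/(b-1)) + 1/(7 b^2 (b-1))`, `(n-1)` times the subtracted part is `≥ 0.306 - (n-1)/(7 (n+3)^2 (n+2)) ≥ 0.304` (`b ≥ n + 3`), so `g₀^(n-1) ≤ exp (-0.304) ≤ 0.738 ≤ 0.7408 ≤ 1 - X^(n-1)`. -/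
def NUFStmt : Prop :=
  ∀ p w r : ℕ, PrE p w r → ∃ X : ℝ, 0 < X ∧ X < 1 ∧
    ((w : ℝ) + 1) * thE p w r ^ (w + 1) ≤ ∑ k ∈ range (w + 1), X ^ (k + 1) ∧
    (thE p w r + (1 + 1 / (7 * ((p : ℝ) + 3) ^ 2)) / ((p : ℝ) + 2)) ^ (w + 1) ≤ 1 - X ^ (w + 1)

/-- (NUG) `Pool.KC7.NUJStmt` for any `th`, `X` (copy the proof: file `Pool/Agent/H17/KC/NUJ.lean` or so). -/
def NUGStmt : Prop :=
  ∀ (p w r : ℕ) (th X : ℝ), 0 ≤ th → th ≤ 1 → 0 < X → X < 1 →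
    ((w : ℝ) + 1) * th ^ (w + 1) ≤ ∑ k ∈ range (w + 1), X ^ (k + 1) →
    (th + (1 + 1 / (7 * ((p : ℝ) + 3) ^ 2)) / ((p : ℝ) + 2)) ^ (w + 1) ≤ 1 - X ^ (w + 1) →
    ∃ g : ℝ, 0 ≤ g ∧
    (∃ a₁ : ℕ, ∀ a : ℕ, a₁ ≤ a →
      (((p : ℝ) + 2) * th + 1 + 1 / (8 * ((p : ℝ) + 3) ^ 2)) * a + r ≤
        ((p : ℝ) + 2) * (g * a)) ∧
    ∃ K₁ : ℝ, 0 < K₁ ∧ ∃ a₂ : ℕ, ∀ a : ℕ, a₂ ≤ a → ∀ n : ℕ, n ≤ (p + 3) * a + r →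
      ((n : ℝ) * ((w : ℝ) + 1) * (th * (a : ℝ)) ^ (w + 1) ≤
          ((((p + 3) * a + r : ℕ) : ℝ) - n) * ((a : ℝ) ^ (w + 1) -
            (((((p + 3) * a + r : ℕ) : ℝ) - n) / ((p : ℝ) + 3)) ^ (w + 1)) +
            K₁ * (a : ℝ) ^ (w + 1) ∨
        (g * (a : ℝ)) ^ (w + 1) ≤ (a : ℝ) ^ (w + 1) -
            (((((p + 3) * a + r : ℕ) : ℝ) - n) / ((p : ℝ) + 3)) ^ (w + 1))

/-- (NETE) `Pool.GV7.NET9Stmt` with a weaker hypothesis and `1 ≤ w`. Needs MLB0, KUM, BRK, TRV, LMB0. PROOF. As there (`Pool/Agent/H*/GV/NET9.lean`): `2 r/((w+1)(b-r)) ≤ 1 - 1/(2r+1) ≤ 1 - 1/(2b)` (`2 r + 1 ≤ (w+1)(b-r)`, `r ≤ b - 3`), and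
`b (b-1) e1/(w+1) ≤ b^2 e1/2 = 1/(32 b)`; so the bracket is `≤ (1 - 1/(2b) + 1/(32 b))(1 + 1/(16 b^2)) + K/a ≤ 1 - 1/(32 b)` for `a` large. -/
def NETEStmt : Prop :=
  ∀ p w r : ℕ, Pr0 p w r → 1 ≤ w → 2 * r < (w + 1) * (p + 3 - r) →
    ∃ a₀ : ℕ, ∀ a ≥ a₀,
    ∀ {V : Type} [DecidableEq V] (G : SimpleGraph V) (e : ℝ)
    (P : Fin (p + 3) → Finset V), 0 ≤ e → e ≤ e1 p / 2 → Par G P →
    (∀ i, (1 - e) * a ≤ ((P i).card : ℝ) ∧ ((P i).card : ℝ) ≤ (1 + e) * a) →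
    (∀ i, ∀ u ∈ P i, ∀ k, k ≠ i → ((non G (P k) u).card : ℝ) ≤ e1 p * a) →
    Lm p w r a * ∑ L ∈ clq G (un P) (p + 3), mm G p r (un P) L +
      lam p w r a * ((∏ i, ((P i).card : ℝ)) - kc G (un P) (p + 3)) + kc G (un P) (w + 2) ≤
      es (sz P) (w + 2)

/-! ### The profile -/

/-- (NDE) A vertex with many neighbours owes nothing (as `Pool.GY7.NDMYStmt`). Needs NUE, PRG (`Pool.GY7.PRGStmt`), PRF (1), (7), ZYG, CCK0 (1), GCO0, GCE. PROOF. As there with `y = yE`: `G x = b x - r - (b-r) x^n` is concave, `G 1 = 0`,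
`G y ≥ b/(200 n)` (NUE), so `G x ≥ (1-x) G y/(1-y) ≥ δ b/(200 n)`, `δ = e1/(8 (b-1))`, and `T/a^b - x^(n-1) ≥ G x/((b-r) x) - K ε ≥ δ/(200 n) - K ε ≥ δ/(400 n)`; `et T/a^b ≤ 2 et ≤ e1/(512 b^3) ≤ δ/(400 n)` (`n ≤ b - 3`, `b ≥ 7`). -/
def NDEStmt : Prop :=
  ∀ p w r : ℕ, PrE p w r → ∃ e₀ : ℝ, 0 < e₀ ∧ ∀ C : ℝ, ∃ a₀ : ℕ, ∀ a ≥ a₀,
    ∀ {V : Type} [DecidableEq V] (G : SimpleGraph V) (e : ℝ) (W : Finset V)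
    (P : Fin (p + 3) → Finset V) (U : Finset V), Str G p a e C W P U → 0 ≤ e → e ≤ e₀ →
    CB G W (p + 3) → ∀ z ∈ U,
    yE p w r * (((p : ℝ) + 2) * a) ≤ ((nb G (un P) z).card : ℝ) →
    nd G p w r a (un P) z = 0

/-- (NBE) As `Pool.GY7.NDBYStmt` with `mE`: `#{B = p+2} ≤ (th + ε) a^b`, `1 - th = (49/50) σ ≥ 0.98/n`, so `#{B ≤ p+1} ≥ a^b/(2 b)` and the gain is `1/(8 b^3)`; `(w+2) et c₁ T ≤ a^b/(16 b^3)`. Needs NUE, GCE, PRF, CCK0 (1), GCO0. -/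
def NBEStmt : Prop :=
  ∀ p w r : ℕ, PrE p w r → ∃ e₀ : ℝ, 0 < e₀ ∧ ∀ C : ℝ, ∃ a₀ : ℕ, ∀ a ≥ a₀,
    ∀ {V : Type} [DecidableEq V] (G : SimpleGraph V) (e : ℝ) (W : Finset V)
    (P : Fin (p + 3) → Finset V) (U : Finset V), Str G p a e C W P U → 0 ≤ e → e ≤ e₀ →
    CB G W (p + 3) → ∀ z ∈ U, ((nb G (un P) z).card : ℝ) ≤ mE p w r * a →
    0 < nd G p w r a (un P) z →
    ((w : ℝ) + 2) * nd G p w r a (un P) z + kc G (nb G (un P) z) (w + 1) ≤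
      ((p + 2).choose (w + 1) - 1 / (32 * ((p : ℝ) + 3) ^ 3)) * (a : ℝ) ^ (w + 1)

/-- The statement of the row BGJ of the board `kc15` (proved there). NOT A ROW. -/
def BGEStmt : Prop :=
  ∀ (p w r : ℕ) (m th g : ℝ), r ≤ p + 3 → m ≤ ((p : ℝ) + 2) * th → 0 ≤ g → ∀ a₁ : ℕ,
    (∀ a : ℕ, a₁ ≤ a →
      (m + 1 + 1 / (8 * ((p : ℝ) + 3) ^ 2)) * a + r ≤ ((p : ℝ) + 2) * (g * a)) →
    ∀ K₁ : ℝ, 0 < K₁ → ∀ a₂ : ℕ,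
    (∀ a : ℕ, a₂ ≤ a → ∀ n : ℕ, n ≤ (p + 3) * a + r →
      ((n : ℝ) * ((w : ℝ) + 1) * (th * (a : ℝ)) ^ (w + 1) ≤
          ((((p + 3) * a + r : ℕ) : ℝ) - n) * ((a : ℝ) ^ (w + 1) -
            (((((p + 3) * a + r : ℕ) : ℝ) - n) / ((p : ℝ) + 3)) ^ (w + 1)) +
            K₁ * (a : ℝ) ^ (w + 1) ∨
        (g * (a : ℝ)) ^ (w + 1) ≤ (a : ℝ) ^ (w + 1) -
            (((((p + 3) * a + r : ℕ) : ℝ) - n) / ((p : ℝ) + 3)) ^ (w + 1))) →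
    ∃ K : ℝ, 0 < K ∧ ∀ δ C : ℝ, 0 < δ → ∃ a₀ : ℕ, ∀ a ≥ a₀,
    ∀ {V : Type} [Fintype V] [DecidableEq V] (G : SimpleGraph V), G8 G p r a →
    ∀ (z : V) (A : Finset V), A ⊆ nb G univ z →
    (∀ v ∈ A, ∃ (e : ℝ) (P : Fin (p + 3) → Finset V) (U : Finset V),
      Str G p a e C (nb G univ v) P U ∧ 0 ≤ e ∧ e ≤ e1 p ∧
      ((Pool.KR.co G v z).card : ℝ) ≤ m * a) →
    ∑ v ∈ A, ((p + 2).choose (w + 1) * (a : ℝ) ^ (w + 1) -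
      (kc G (Pool.KR.co G v z) (w + 1) : ℝ)) ≤
      ((w : ℝ) + 2) * df G p w r a (nb G univ z) + K * (a : ℝ) ^ (w + 1) +
        δ * A.card * (a : ℝ) ^ (w + 1)

/-- (BDE) As `Pool.KC7.BDJStmt`. Needs BGE, NUE, NUF, NUG (`th = thE`, `m = mE`). -/
def BDEStmt : Prop :=
  ∀ p w r : ℕ, PrE p w r → ∃ K : ℝ, 0 < K ∧ ∀ δ C : ℝ, 0 < δ → ∃ a₀ : ℕ, ∀ a ≥ a₀,
    ∀ {V : Type} [Fintype V] [DecidableEq V] (G : SimpleGraph V), G8 G p r a →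
    ∀ (z : V) (A : Finset V), A ⊆ nb G univ z →
    (∀ v ∈ A, ∃ (e : ℝ) (P : Fin (p + 3) → Finset V) (U : Finset V),
      Str G p a e C (nb G univ v) P U ∧ 0 ≤ e ∧ e ≤ e1 p ∧
      ((Pool.KR.co G v z).card : ℝ) ≤ mE p w r * a) →
    ∑ v ∈ A, ((p + 2).choose (w + 1) * (a : ℝ) ^ (w + 1) -
      (kc G (Pool.KR.co G v z) (w + 1) : ℝ)) ≤
      ((w : ℝ) + 2) * df G p w r a (nb G univ z) + K * (a : ℝ) ^ (w + 1) +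
        δ * A.card * (a : ℝ) ^ (w + 1)

/-- (BUE) As `Pool.GY7.BUDYStmt` (and `Pool.KC7.BUJStmt`). Needs NUE, NDE, NBE, BDE (`n_z < yE (p+2) a` gives `card (co G v z) ≤ mE a`, `thE - yE = σ/100 ≥ 1/(100 n)`). -/
def BUEStmt : Prop :=
  ∀ p w r : ℕ, PrE p w r → ∀ C₀ : ℝ, 0 < C₀ → ∃ C₂ : ℝ, 0 < C₂ ∧ ∃ e₀ : ℝ, 0 < e₀ ∧ e₀ ≤ e1 p ∧
    ∀ C : ℝ, ∃ a₀ : ℕ, ∀ a ≥ a₀,
    ∀ {V : Type} [Fintype V] [DecidableEq V] (G : SimpleGraph V), G8 G p r a →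
    ∀ (e : ℝ), 0 ≤ e → e ≤ e₀ → ∀ (z : V) (A : Finset V)
    (P : V → Fin (p + 3) → Finset V) (U : V → Finset V), A ⊆ nb G univ z →
    (∀ v ∈ A, Str G p a e C (nb G univ v) (P v) (U v) ∧ z ∈ U v) →
    C₂ * (a : ℝ) ^ (w + 1) ≤ df G p w r a (nb G univ z) →
    ∑ v ∈ A, nd G p w r a (un (P v)) z ≤
      df G p w r a (nb G univ z) - C₀ * (a : ℝ) ^ (w + 1)

/-- (GGE) As `Pool.GY7.GGPYStmt` (`b ≥ r + 3 ≥ 7`). Needs STG. -/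
def GGEStmt : Prop :=
  ∀ p w r : ℕ, PrE p w r → ∃ e₀ : ℝ, 0 < e₀ ∧ e₀ ≤ e1 p ∧ ∀ (C : ℝ) (C₁ : ℕ), ∃ a₀ : ℕ,
    ∀ a ≥ a₀, ∀ {V : Type} [Fintype V] [DecidableEq V] (G : SimpleGraph V), G8 G p r a →
    ∀ (e : ℝ), 0 ≤ e → e ≤ e₀ → ∀ (v z : V) (P P' : Fin (p + 3) → Finset V) (U U' : Finset V),
    Str G p a e C (nb G univ v) P U → Str G p a e C (nb G univ z) P' U' → z ∈ U →
    a ^ (p + 4) ≤ (a + C₁) * kc G (nb G univ z) (p + 3) →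
    Pool.KR.co G v z ⊆ U ∪ U' ∧ v ∈ U'

/-- (PYE) As `Pool.GY7.PAYYStmt`. -/
def PYEStmt : Prop :=
  ∀ p w r : ℕ, PrE p w r → ∀ C : ℝ, 0 < C → ∃ a₀ : ℕ, ∀ a ≥ a₀,
    ∀ {V : Type} [Fintype V] [DecidableEq V] (G : SimpleGraph V) (Gd : Finset V)
    (P : V → Fin (p + 3) → Finset V) (U : V → Finset V),
    (∀ v ∈ Gd, un (P v) ⊆ nb G univ v ∧ ((U v).card : ℝ) ≤ C) →
    (∀ v ∈ Gd, ∀ z ∈ U v, 0 ≤ TZ G p r (un (P v)) z) →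
    (∀ v ∈ Gd, ∀ z ∈ Gd, z ∈ U v → Pool.KR.co G v z ⊆ U v ∪ U z ∧ v ∈ U z) →
    ∑ v ∈ Gd, ∑ z ∈ (U v).filter (fun z => z ∈ Gd), nd G p w r a (un (P v)) z ≤
      ∑ v ∈ Gd, (2 * ((p + 1).choose (w + 1) : ℝ) - 1) * ((U v).card.choose 2 : ℝ) *
        (a : ℝ) ^ w

/-- (KUE) As `Pool.GY7.KUYStmt`. -/
def KUEStmt : Prop :=
  ∀ {V : Type} [DecidableEq V] (G : SimpleGraph V) (p w r a : ℕ) (e C : ℝ) (W : Finset V)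
    (P : Fin (p + 3) → Finset V) (U : Finset V), PrE p w r → Str G p a e C W P U → 0 ≤ e →
    e ≤ e1 p / 2 → CB G W (p + 3) → ∀ z ∈ U,
    (kc G (nb G (un P) z) w : ℝ) * (a : ℝ) ^ (p + 3) ≤
      (a : ℝ) ^ w * (((p + 1).choose w + 1 / 4) * (a : ℝ) ^ (p + 3) +
        2 ^ (p + 4) * ((p : ℝ) + 3) * TZ G p r (un P) z)

/-- (LPE) As `Pool.GY7.LIPYStmt`, with NETE in place of NET9. Needs CCK0, KUE, DKU, DML, XSP0, NETE, SIZ0, XGR0, LMB0, GCO0, GCE. -/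
def LPEStmt : Prop :=
  ∀ p w r : ℕ, PrE p w r → ∃ e₀ : ℝ, 0 < e₀ ∧ ∀ e : ℝ, 0 < e → e ≤ e₀ → ∀ C : ℝ, 0 < C →
    ∃ a₀ : ℕ, ∀ a ≥ a₀, ∀ {V : Type} [DecidableEq V] (G : SimpleGraph V) (W : Finset V)
    (P : Fin (p + 3) → Finset V) (U : Finset V), Str G p a e C W P U → CB G W (p + 3) →
    W.card ≤ (p + 3) * a + r →
    Ph G p w r a W + (2 * ((p + 1).choose (w + 1) : ℝ) - 1) * (U.card.choose 2 : ℝ) *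
      (a : ℝ) ^ w ≤ df G p w r a W + ∑ z ∈ U, nd G p w r a (un P) z

/-- (SME) As `Pool.GY7.SUMYStmt`. Needs PHB, BUE, LPE, GGE, PYE, STC, MMC, CCK0, TTR (3), GCE. -/
def SMEStmt : Prop :=
  ∀ p w r : ℕ, PrE p w r → ∃ a₀ : ℕ, ∀ a ≥ a₀, ∀ {V : Type} [Fintype V] [DecidableEq V]
    (G : SimpleGraph V), G8 G p r a →
    ∑ v, Ph G p w r a (nb G univ v) ≤ ∑ v, df G p w r a (nb G univ v)

/-- (FNE) The theorem. Needs SME, GLD0, TCT, GCE. -/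
def FNEStmt : Prop :=
  ∀ p w r : ℕ, PrE p w r → ∃ a₀ : ℕ, ∀ a ≥ a₀, ∀ (m : ℕ) (H : SimpleGraph (Fin m)),
    (∀ v, (H.neighborSet v).ncard ≤ (p + 3) * a + r) → H.CliqueFree (p + 5) →
      {s : Finset (Fin m) | H.IsNClique (w + 3) s}.ncard * ((p + 4) * a + r) ≤
        {s : Finset (Fin ((p + 4) * a + r)) |
          (SimpleGraph.turanGraph ((p + 4) * a + r) (p + 4)).IsNClique (w + 3) s}.ncard * m

end Pool.MF7
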